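import Pool.Agent.W203.BE.Stms
import Pool.Agent.Helper76.HPlanch

/-!
# Bochner-Riesz means over ellipsoids: contractivity on `L^2` (BE-L2)
-/

set_option autoImplicit false

open MeasureTheory Set Complex Filter FourierTransform
open scoped ENNReal Convolution

namespace Pool.Agent.W688.BE

open Pool.Agent.W203.BE

theorem l2 (hB : S_BAS) : S_L2 := by
  intro α hα g hgm hgi
  by_cases hfin : ∫⁻ x, ‖g x‖ₑ ^ 2 = ⊤
  · rw [hfin]; exact le_top
  obtain ⟨hc, hi, hn, -, -, hF, -⟩ := hB α hα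
  have hconv : T1 α g = (g ⋆[ContinuousLinearMap.mul ℂ ℂ, volume] g1 α) := by
    funext x
    unfold T1 convolution
    congr 1
    funext y
    simp [mul_comm]
  have hTi : Integrable (T1 α g) := by
    rw [hconv]
    exact hgi.integrable_convolution _ hi
  have hgL : MemLp g 2 := by
    refine ⟨hgm.aestronglyMeasurable, ?_⟩
    rw [eLpNorm_eq_lintegral_rpow_enorm_toReal (by norm_num) (by norm_num)]
    apply ENNReal.rpow_lt_top_of_nonneg (by norm_num)
    simpa using hfin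
  set M : ℝ := Real.sqrt (Real.pi / ‖α‖) with hM
  have hM0 : 0 ≤ M := Real.sqrt_nonneg _
  have hbd : ∀ x, ‖T1 α g x‖ ≤ M * ∫ y, ‖g y‖ := by
    intro x
    unfold T1
    refine (norm_integral_le_integral_norm _).trans ?_
    rw [← integral_const_mul]
    refine integral_mono_of_nonneg (Eventually.of_forall fun _ => norm_nonneg _)
      (hgi.norm.const_mul M) (Eventually.of_forall fun y => ?_)
    simp only [norm_mul]
    refine mul_le_mul_of_nonneg_right ?_ (norm_nonneg _)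
    rw [hn]
    refine mul_le_of_le_one_right hM0 ?_
    rw [Real.exp_le_one_iff, neg_nonpos]
    positivity
  have hT2 : MemLp (T1 α g) 2 := by
    rw [memLp_two_iff_integrable_sq_norm hTi.aestronglyMeasurable]
    refine (hTi.norm.const_mul (M * ∫ y, ‖g y‖)).mono' (hTi.norm.aestronglyMeasurable.pow 2)
      (Eventually.of_forall fun x => ?_)
    rw [Real.norm_of_nonneg (by positivity), sq]
    exact mul_le_mul_of_nonneg_right (hbd x) (norm_nonneg _)
  have hFg : ∀ ξ : ℝ, 𝓕 (g1 α) ξ = cexp (-(α * (ξ : ℂ) ^ 2)) := by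
    intro ξ
    rw [← hF ξ, Real.fourier_eq']
    congr 1
    funext x
    rw [smul_eq_mul, mul_comm]
    congr 2
    simp
    ring
  have hFT : ∀ ξ : ℝ, 𝓕 (T1 α g) ξ = 𝓕 g ξ * cexp (-(α * (ξ : ℂ) ^ 2)) := by
    intro ξ
    rw [hconv, Real.fourier_mul_convolution_eq hgi hi, hFg]
  rw [← Pool.Agent.Helper76.NormalHP.plancherel_lintegral _ hTi hT2,
    ← Pool.Agent.Helper76.NormalHP.plancherel_lintegral g hgi hgL]
  refine lintegral_mono fun ξ => ?_
  rw [hFT, enorm_mul]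
  have h1 : ‖cexp (-(α * (ξ : ℂ) ^ 2))‖ₑ ≤ 1 := by
    rw [← ofReal_norm, Complex.norm_exp, ← ENNReal.ofReal_one]
    apply ENNReal.ofReal_le_ofReal
    rw [Real.exp_le_one_iff]
    have : (-(α * (ξ : ℂ) ^ 2)).re = -(α.re * ξ ^ 2) := by
      rw [← Complex.ofReal_pow, Complex.neg_re, Complex.re_mul_ofReal]
    rw [this, neg_nonpos]
    positivity
  calc (‖𝓕 g ξ‖ₑ * ‖cexp (-(α * (ξ : ℂ) ^ 2))‖ₑ) ^ 2 ≤ (‖𝓕 g ξ‖ₑ * 1) ^ 2 := by gcongr
    _ = ‖𝓕 g ξ‖ₑ ^ 2 := by rw [mul_one]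

end Pool.Agent.W688.BE
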