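import Pool.Agent.W203.BE.Stms

/-!
# Bochner-Riesz means over ellipsoids: the `L^4` estimate on a vertical line (BE-L4A)
-/

set_option autoImplicit false

open MeasureTheory Set Complex Filter
open scoped ENNReal Topology

namespace Pool.Agent.W688.BE

open Pool.Agent.W203.BE

/-- the weight -/
noncomputable def wt (r : ℝ) (u : ℝ) : ℝ≥0∞ :=
  ENNReal.ofReal (Real.exp (-(4 * Real.pi * r * u ^ 2)) / |u|)

lemma wt_meas (r : ℝ) : Measurable (wt r) := by unfold wt; fun_prop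

lemma wt_neg (r u : ℝ) : wt r (-u) = wt r u := by
  unfold wt
  rw [neg_sq, abs_neg]

lemma wt_half {r : ℝ} (hr : 0 < r) (hr1 : r ≤ 1) :
    ∫⁻ u in Ioi (1:ℝ), wt r u ≤ ENNReal.ofReal (1 / 2 * (1 + Real.log (1 / r))) := by
  set F : ℝ → ℝ := fun u => 1 / 2 * Real.log (u ^ 2 / (1 + r * u ^ 2)) with hF
  set f : ℝ → ℝ := fun u => 1 / (u * (1 + r * u ^ 2)) with hf
  have hderiv : ∀ u ∈ Ici (1:ℝ), HasDerivAt F (f u) u := by
    intro u hu
    have hu0 : 0 < u := lt_of_lt_of_le one_pos hu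
    have h1 : 0 < 1 + r * u ^ 2 := by positivity
    have h2 : HasDerivAt (fun u : ℝ => u ^ 2) (2 * u) u := by
      simpa using hasDerivAt_pow 2 u
    have h3 : HasDerivAt (fun u : ℝ => 1 + r * u ^ 2) (r * (2 * u)) u :=
      (h2.const_mul r).const_add 1
    have h4 : HasDerivAt (fun u : ℝ => u ^ 2 / (1 + r * u ^ 2))
        ((2 * u * (1 + r * u ^ 2) - u ^ 2 * (r * (2 * u))) / (1 + r * u ^ 2) ^ 2) u :=
      h2.div h3 h1.ne'
    have h6 : u ^ 2 / (1 + r * u ^ 2) ≠ 0 := by positivity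
    have h5 := (h4.log h6).const_mul (1 / 2)
    have e : f u = 1 / 2 * ((2 * u * (1 + r * u ^ 2) - u ^ 2 * (r * (2 * u))) /
        (1 + r * u ^ 2) ^ 2 / (u ^ 2 / (1 + r * u ^ 2))) := by
      show 1 / (u * (1 + r * u ^ 2)) = _
      field_simp
      ring
    rw [e]
    exact h5
  have hlim : Tendsto F atTop (𝓝 (1 / 2 * Real.log (1 / r))) := by
    have h1 : Tendsto (fun u : ℝ => u ^ 2 / (1 + r * u ^ 2)) atTop (𝓝 (1 / r)) := by
      have h2 : Tendsto (fun u : ℝ => 1 / (1 / u ^ 2 + r)) atTop (𝓝 (1 / (0 + r))) := by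
        refine Tendsto.div tendsto_const_nhds (Tendsto.add ?_ tendsto_const_nhds) (by
          rw [zero_add]; exact hr.ne')
        have := tendsto_const_nhds (x := (1:ℝ)) (f := atTop (α := ℝ)) |>.div_atTop
          (tendsto_pow_atTop (α := ℝ) two_ne_zero)
        exact this
      rw [zero_add] at h2
      refine h2.congr' ?_
      filter_upwards [eventually_gt_atTop (0:ℝ)] with u hu
      field_simp
    exact ((h1.log (by positivity)).const_mul (1 / 2))
  have hf0 : ∀ u ∈ Ioi (1:ℝ), 0 ≤ f u := by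
    intro u hu
    have hu0 : 0 < u := lt_trans one_pos hu
    simp only [hf]
    positivity
  have hint := integral_Ioi_of_hasDerivAt_of_nonneg' hderiv hf0 hlim
  have hio := integrableOn_Ioi_deriv_of_nonneg' hderiv hf0 hlim
  calc ∫⁻ u in Ioi (1:ℝ), wt r u ≤ ∫⁻ u in Ioi (1:ℝ), ENNReal.ofReal (f u) := by
        refine setLIntegral_mono' measurableSet_Ioi fun u hu => ?_
        have hu0 : 0 < u := lt_trans one_pos hu
        unfold wt
        apply ENNReal.ofReal_le_ofReal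
        rw [abs_of_pos hu0]
        have h1 : 1 + r * u ^ 2 ≤ Real.exp (4 * Real.pi * r * u ^ 2) := by
          have h2 := Real.add_one_le_exp (4 * Real.pi * r * u ^ 2)
          have h3 : r * u ^ 2 ≤ 4 * Real.pi * r * u ^ 2 := by
            have : 1 ≤ 4 * Real.pi := by linarith [Real.pi_gt_three]
            have h4 : 0 ≤ r * u ^ 2 := by positivity
            nlinarith
          linarith
        rw [Real.exp_neg]
        simp only [hf]
        rw [inv_eq_one_div, div_div]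
        apply one_div_le_one_div_of_le (by positivity)
        rw [mul_comm]
        gcongr
    _ = ENNReal.ofReal (∫ u in Ioi (1:ℝ), f u) := by
        rw [ofReal_integral_eq_lintegral_ofReal hio]
        filter_upwards [ae_restrict_mem measurableSet_Ioi] with u hu using hf0 u hu
    _ ≤ ENNReal.ofReal (1 / 2 * (1 + Real.log (1 / r))) := by
        apply ENNReal.ofReal_le_ofReal
        rw [hint]
        simp only [hF]
        have h1 : Real.log ((1:ℝ) ^ 2 / (1 + r * 1 ^ 2)) = -Real.log (1 + r) := by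
          rw [one_pow, mul_one, one_div, Real.log_inv]
        rw [h1]
        have h2 := Real.log_le_sub_one_of_pos (by linarith : 0 < 1 + r)
        linarith

lemma wt_all {r : ℝ} (hr : 0 < r) (hr1 : r ≤ 1) :
    ∫⁻ u in {u : ℝ | 1 < |u|}, wt r u ≤ ENNReal.ofReal (1 + Real.log (1 / r)) := by
  have hset : {u : ℝ | 1 < |u|} = Ioi 1 ∪ Iio (-1) := by
    ext u
    simp only [mem_ofPred_eq, mem_union, mem_Ioi, mem_Iio, lt_abs]
    constructor
    · rintro (h | h)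
      · exact Or.inl h
      · exact Or.inr (by linarith)
    · rintro (h | h)
      · exact Or.inl h
      · exact Or.inr (by linarith)
  rw [hset]
  refine (lintegral_union_le _ _ _).trans ?_
  have h1 : ∫⁻ u in Iio (-1:ℝ), wt r u = ∫⁻ u in Ioi (1:ℝ), wt r u := by
    rw [← lintegral_indicator measurableSet_Iio, ← lintegral_indicator measurableSet_Ioi,
      ← lintegral_neg_eq_self]
    congr 1
    funext u
    by_cases hu : u ∈ Ioi (1:ℝ)
    · rw [indicator_of_mem hu, indicator_of_mem (show -u ∈ Iio (-1:ℝ) from by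
        simp only [mem_Iio, neg_lt_neg_iff]; exact hu), wt_neg]
    · rw [indicator_of_notMem hu, indicator_of_notMem (show -u ∉ Iio (-1:ℝ) from by
        simp only [mem_Iio, neg_lt_neg_iff]; exact hu)]
  have hl : 0 ≤ Real.log (1 / r) := Real.log_nonneg (by rw [le_div_iff₀ hr]; linarith)
  rw [h1]
  have h2 := wt_half hr hr1
  calc _ ≤ ENNReal.ofReal (1 / 2 * (1 + Real.log (1 / r))) +
        ENNReal.ofReal (1 / 2 * (1 + Real.log (1 / r))) := add_le_add h2 h2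
    _ = ENNReal.ofReal (1 + Real.log (1 / r)) := by
        rw [← ENNReal.ofReal_add (by positivity) (by positivity)]
        congr 1
        ring

/-- the quadratic quantity -/
lemma quad (g : ℝ → ℂ) (hg : Measurable g) (u : ℝ) :
    ∫⁻ p, ‖g (p + u) * g (p - u)‖ₑ ^ 2 ≤ 2 * ∫⁻ x, ‖g x‖ₑ ^ 4 := by
  have h1 : ∀ a b : ℝ≥0∞, (a * b) ^ 2 ≤ a ^ 4 + b ^ 4 := by
    intro a b
    rcases le_total a b with h | h
    · calc (a * b) ^ 2 ≤ (b * b) ^ 2 := by gcongr
        _ = b ^ 4 := by ring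
        _ ≤ a ^ 4 + b ^ 4 := le_add_self
    · calc (a * b) ^ 2 ≤ (a * a) ^ 2 := by gcongr
        _ = a ^ 4 := by ring
        _ ≤ a ^ 4 + b ^ 4 := le_self_add
  calc ∫⁻ p, ‖g (p + u) * g (p - u)‖ₑ ^ 2 ≤ ∫⁻ p, (‖g (p + u)‖ₑ ^ 4 + ‖g (p - u)‖ₑ ^ 4) := by
        refine lintegral_mono fun p => ?_
        rw [enorm_mul]
        exact h1 _ _
    _ = (∫⁻ p, ‖g (p + u)‖ₑ ^ 4) + ∫⁻ p, ‖g (p - u)‖ₑ ^ 4 := by
        rw [lintegral_add_left]
        exact ((hg.comp (measurable_id.add_const u)).enorm.pow_const 4)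
    _ = 2 * ∫⁻ x, ‖g x‖ₑ ^ 4 := by
        rw [lintegral_add_right_eq_self (fun x => ‖g x‖ₑ ^ 4) u,
          lintegral_sub_right_eq_self (fun x => ‖g x‖ₑ ^ 4) u, two_mul]

/-- integrability for almost every `p` -/
lemma int_ae (g : ℝ → ℂ) (hgi : Integrable g) :
    ∀ᵐ p : ℝ, Integrable fun u => g (p + u) * g (p - u) := by
  have h1 := (hgi.convolution_integrand (ContinuousLinearMap.mul ℂ ℂ) hgi).prod_right_ae
  have h2 : ∀ᵐ x : ℝ, Integrable fun t => g t * g (x - t) := by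
    filter_upwards [h1] with x hx
    simpa using hx
  have h3 : Measure.QuasiMeasurePreserving (fun p : ℝ => 2 * p) volume volume := by
    refine ⟨by fun_prop, ?_⟩
    rw [Real.map_volume_mul_left (two_ne_zero)]
    exact Measure.smul_absolutelyContinuous
  filter_upwards [h3.ae h2] with p hp
  have h4 := hp.comp_add_left p
  refine h4.congr (Eventually.of_forall fun u => ?_)
  simp only
  congr 2
  ring

/-- joint measurability -/
lemma A_meas (g : ℝ → ℂ) (hg : Measurable g) (r : ℝ) :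
    Measurable fun q : ℝ × ℝ => A g (⟨r, -q.1⟩ : ℂ) q.2 := by
  unfold A
  have h : StronglyMeasurable (Function.uncurry fun (q : ℝ × ℝ) (u : ℝ) =>
      g (q.2 + u) * g (q.2 - u) *
        cexp (-(2 * (Real.pi : ℂ) * (⟨r, -q.1⟩ : ℂ) * (u : ℂ) ^ 2))) := by
    apply Measurable.stronglyMeasurable
    unfold Function.uncurry
    have h1 : Measurable fun q : (ℝ × ℝ) × ℝ => g (q.1.2 + q.2) := hg.comp (by fun_prop)
    have h2 : Measurable fun q : (ℝ × ℝ) × ℝ => g (q.1.2 - q.2) := hg.comp (by fun_prop)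
    have h3 : Measurable fun q : (ℝ × ℝ) × ℝ => (⟨r, -q.1.1⟩ : ℂ) := by
      have : (fun q : (ℝ × ℝ) × ℝ => (⟨r, -q.1.1⟩ : ℂ)) =
          fun q => (r : ℂ) + ((-q.1.1 : ℝ) : ℂ) * I := by
        funext q
        exact Complex.mk_eq_add_mul_I _ _
      rw [this]
      fun_prop
    have h4 : Measurable fun q : (ℝ × ℝ) × ℝ =>
        cexp (-(2 * (Real.pi : ℂ) * (⟨r, -q.1.1⟩ : ℂ) * (q.2 : ℂ) ^ 2)) := by
      apply Measurable.cexp
      apply Measurable.neg
      exact (h3.const_mul _).mul (by fun_prop)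
    exact (h1.mul h2).mul h4
  exact h.integral_prod_right.measurable

theorem l4a (hSQ : S_SQ) (hPL : S_PL) : S_L4A := by
  obtain ⟨C, hC, hPL⟩ := hPL
  refine ⟨108 * C, by positivity, ?_⟩
  intro g hgm hgi r w₀ hr hrw hw1
  have hw0 : 0 < w₀ := hr.trans_le hrw
  have hr1 : r ≤ 1 := hrw.trans hw1
  have hl : 0 ≤ Real.log (1 / r) := Real.log_nonneg (by rw [le_div_iff₀ hr]; linarith)
  set I4 : ℝ≥0∞ := ∫⁻ x, ‖g x‖ₑ ^ 4 with hI4
  set G : ℝ → ℝ → ℂ := fun p u => g (p + u) * g (p - u) with hG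
  have hGm2 : Measurable (Function.uncurry G) := by
    unfold Function.uncurry
    exact (hgm.comp (by fun_prop)).mul (hgm.comp (by fun_prop))
  have hGm : ∀ p, Measurable (G p) := fun p => hGm2.of_uncurry_left
  -- step 1
  have step1 : ∫⁻ w in Icc w₀ (8 * w₀), ∫⁻ x, ‖T1 ((Real.pi : ℂ) / (⟨r, -w⟩ : ℂ)) g x‖ₑ ^ 4 ≤
      ENNReal.ofReal (18 * w₀) *
        ∫⁻ w in Icc w₀ (8 * w₀), ∫⁻ p, ‖A g (⟨r, -w⟩ : ℂ) p‖ₑ ^ 2 := by
    rw [← lintegral_const_mul' _ _ ENNReal.ofReal_ne_top]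
    refine setLIntegral_mono' measurableSet_Icc fun w hw => ?_
    refine (hSQ (⟨r, -w⟩ : ℂ) hr g hgm hgi).trans ?_
    gcongr ENNReal.ofReal ?_ * _
    have h1 : ‖(⟨r, -w⟩ : ℂ)‖ ≤ |r| + |(-w)| := Complex.norm_le_abs_re_add_abs_im _
    rw [abs_neg, abs_of_pos hr, abs_of_pos (hw0.trans_le hw.1)] at h1
    linarith [hw.2]
  -- step 2
  have step2 : ∫⁻ w in Icc w₀ (8 * w₀), ∫⁻ p, ‖A g (⟨r, -w⟩ : ℂ) p‖ₑ ^ 2 =
      ∫⁻ p, ∫⁻ w in Icc w₀ (8 * w₀), ‖A g (⟨r, -w⟩ : ℂ) p‖ₑ ^ 2 := by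
    apply lintegral_lintegral_swap
    exact ((A_meas g hgm r).enorm.pow_const 2).aemeasurable
  -- step 3
  have step3 : ∫⁻ p, ∫⁻ w in Icc w₀ (8 * w₀), ‖A g (⟨r, -w⟩ : ℂ) p‖ₑ ^ 2 ≤
      ENNReal.ofReal C * ∫⁻ p, ((∫⁻ u in {u : ℝ | 1 < |u|}, ‖G p u‖ₑ ^ 2 * wt r u) +
        ENNReal.ofReal w₀ * ∫⁻ u in {u : ℝ | |u| ≤ 1}, ‖G p u‖ₑ ^ 2) := by
    rw [← lintegral_const_mul' _ _ ENNReal.ofReal_ne_top]
    refine lintegral_mono_ae ?_
    filter_upwards [int_ae g hgi] with p hp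
    exact hPL (G p) (hGm p) hp (fun u => by
      simp only [hG]
      rw [mul_comm, sub_neg_eq_add, ← sub_eq_add_neg]) r w₀ hr hw0
  -- step 4
  have m1 : Measurable fun q : ℝ × ℝ => ‖G q.1 q.2‖ₑ ^ 2 * wt r q.2 :=
    (hGm2.enorm.pow_const 2).mul ((wt_meas r).comp measurable_snd)
  have m2 : Measurable fun q : ℝ × ℝ => ‖G q.1 q.2‖ₑ ^ 2 := hGm2.enorm.pow_const 2
  have step4 : ∫⁻ p, ∫⁻ u in {u : ℝ | 1 < |u|}, ‖G p u‖ₑ ^ 2 * wt r u ≤
      ENNReal.ofReal (1 + Real.log (1 / r)) * (2 * I4) := by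
    rw [lintegral_lintegral_swap m1.aemeasurable]
    calc ∫⁻ u in {u : ℝ | 1 < |u|}, ∫⁻ p, ‖G p u‖ₑ ^ 2 * wt r u
        ≤ ∫⁻ u in {u : ℝ | 1 < |u|}, wt r u * (2 * I4) := by
          refine lintegral_mono fun u => ?_
          have m3 : Measurable fun p : ℝ => ‖G p u‖ₑ ^ 2 :=
            (hGm2.of_uncurry_right (y := u)).enorm.pow_const 2
          have e3 : ∫⁻ p, ‖G p u‖ₑ ^ 2 * wt r u = (∫⁻ p, ‖G p u‖ₑ ^ 2) * wt r u :=
            lintegral_mul_const (wt r u) m3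
          have e4 : ∫⁻ p, ‖G p u‖ₑ ^ 2 ≤ 2 * I4 := quad g hgm u
          show ∫⁻ p, ‖G p u‖ₑ ^ 2 * wt r u ≤ wt r u * (2 * I4)
          rw [e3, mul_comm (wt r u)]
          exact mul_le_mul_left e4 _
      _ = (∫⁻ u in {u : ℝ | 1 < |u|}, wt r u) * (2 * I4) :=
          lintegral_mul_const _ (wt_meas r)
      _ ≤ ENNReal.ofReal (1 + Real.log (1 / r)) * (2 * I4) :=
          mul_le_mul_left (wt_all hr hr1) _
  have step5 : ∫⁻ p, ∫⁻ u in {u : ℝ | |u| ≤ 1}, ‖G p u‖ₑ ^ 2 ≤ 2 * (2 * I4) := by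
    rw [lintegral_lintegral_swap m2.aemeasurable]
    calc ∫⁻ u in {u : ℝ | |u| ≤ 1}, ∫⁻ p, ‖G p u‖ₑ ^ 2
        ≤ ∫⁻ u in {u : ℝ | |u| ≤ 1}, 2 * I4 := lintegral_mono fun u => quad g hgm u
      _ = 2 * I4 * volume {u : ℝ | |u| ≤ 1} := by rw [setLIntegral_const]
      _ = 2 * (2 * I4) := by
          have : {u : ℝ | |u| ≤ 1} = Icc (-1) 1 := by
            ext u
            simp only [mem_ofPred_eq, mem_Icc, abs_le]
          rw [this, Real.volume_Icc, mul_comm]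
          norm_num
  have mm : Measurable fun p => ∫⁻ u in {u : ℝ | 1 < |u|}, ‖G p u‖ₑ ^ 2 * wt r u :=
    m1.lintegral_prod_right'
  rw [lintegral_add_left mm, lintegral_const_mul' _ _ ENNReal.ofReal_ne_top] at step3
  calc _ ≤ ENNReal.ofReal (18 * w₀) * (ENNReal.ofReal C *
        (ENNReal.ofReal (1 + Real.log (1 / r)) * (2 * I4) + ENNReal.ofReal w₀ * (2 * (2 * I4)))) := by
        refine step1.trans ?_
        rw [step2]
        gcongr
        refine step3.trans ?_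
        gcongr
    _ = ENNReal.ofReal (18 * w₀ * C * (2 * (1 + Real.log (1 / r)) + 4 * w₀)) * I4 := by
        have e2 : ENNReal.ofReal 2 = 2 := by norm_num
        have e4 : ENNReal.ofReal 4 = 2 * 2 := by
          rw [show (4:ℝ) = 2 * 2 by norm_num, ENNReal.ofReal_mul (by norm_num), e2]
        have e5 : ENNReal.ofReal (2 * (1 + Real.log (1 / r)) + 4 * w₀) =
            2 * ENNReal.ofReal (1 + Real.log (1 / r)) + 2 * 2 * ENNReal.ofReal w₀ := by
          have a1 : 0 ≤ 2 * (1 + Real.log (1 / r)) := by positivity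
          have a2 : 0 ≤ 4 * w₀ := by positivity
          rw [ENNReal.ofReal_add a1 a2, ENNReal.ofReal_mul (by norm_num : (0:ℝ) ≤ 2),
            ENNReal.ofReal_mul (by norm_num : (0:ℝ) ≤ 4), e2, e4]
        rw [ENNReal.ofReal_mul (by positivity : 0 ≤ 18 * w₀ * C),
          ENNReal.ofReal_mul (by positivity : 0 ≤ 18 * w₀), e5]
        ring
    _ ≤ ENNReal.ofReal (108 * C * w₀ * (1 + Real.log (1 / r))) * I4 := by
        gcongr ENNReal.ofReal ?_ * _
        have h1 : 2 * (1 + Real.log (1 / r)) + 4 * w₀ ≤ 6 * (1 + Real.log (1 / r)) := by linarith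
        calc 18 * w₀ * C * (2 * (1 + Real.log (1 / r)) + 4 * w₀) ≤
            18 * w₀ * C * (6 * (1 + Real.log (1 / r))) := by gcongr
          _ = _ := by ring

end Pool.Agent.W688.BE
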